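import Pool.Agent.Y461.KM.Stm

/-!
# Project KM: the differential preserves cochains and its square vanishes
-/

set_option autoImplicit false
set_option linter.all false

namespace Pool.Agent.Y845.KM

open Pool.Agent.Y461.KM Finset

lemma inv_anti {n m : ℕ} (A : Matrix (Fin n) (Fin n) ℤ) (b : Fin n → Fin m → ℚ)
    {J K : Finset (Fin n)} (h : J ⊆ K) : Inv A b K ≤ Inv A b J := fun _ hf j hj => hf j (h hj)

open Classical in
lemma co_dd {n m : ℕ} (A : Matrix (Fin n) (Fin n) ℤ) (b : Fin n → Fin m → ℚ) (Φ : Cch n m)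
    (h : Co A b Φ) : Co A b (dd A b Φ) := by
  intro c
  refine ⟨fun hc => by simp [dd, hc], ?_⟩
  by_cases hc : Smp A b c
  · simp only [dd, hc, if_true]
    refine Subalgebra.sum_mem _ fun J hJ => ?_
    refine Subalgebra.mul_mem _ (Subalgebra.pow_mem _
      (Subalgebra.neg_mem _ (Subalgebra.one_mem _)) _) ?_
    exact inv_anti A b (Finset.inf_mono (erase_subset J c)) (h (c.erase J)).2
  · simp only [dd, hc, if_false]
    exact Subalgebra.zero_mem _

open Classical in
lemma sgn {n : ℕ} (c : Finset (Finset (Fin n))) (J L : Finset (Fin n)) (hJ : J ∈ c)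
    (hJL : J ⊂ L) :
    (c.filter (fun K => K ⊂ L)).card = ((c.erase J).filter (fun K => K ⊂ L)).card + 1 ∧
    ((c.erase L).filter (fun K => K ⊂ J)).card = (c.filter (fun K => K ⊂ J)).card := by
  constructor
  · have h1 : (c.erase J).filter (fun K => K ⊂ L) = (c.filter (fun K => K ⊂ L)).erase J := by
      ext K
      simp only [mem_filter, mem_erase]
      tauto
    rw [h1, card_erase_add_one]
    exact mem_filter.2 ⟨hJ, hJL⟩
  · congr 1
    ext K
    simp only [mem_filter, mem_erase]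
    constructor
    · rintro ⟨⟨_, h2⟩, h3⟩
      exact ⟨h2, h3⟩
    · rintro ⟨h2, h3⟩
      refine ⟨⟨?_, h2⟩, h3⟩
      rintro rfl
      exact (h3.trans hJL).ne rfl

open Classical in
lemma anti {n m : ℕ} (Φ : Cch n m) (c : Finset (Finset (Fin n))) (J L : Finset (Fin n))
    (hJ : J ∈ c) (hL : L ∈ c) (hJL : J ⊂ L) :
    (-1) ^ (c.filter (fun K => K ⊂ J)).card *
      ((-1) ^ ((c.erase J).filter (fun K => K ⊂ L)).card * Φ ((c.erase J).erase L)) =
    -((-1) ^ (c.filter (fun K => K ⊂ L)).card *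
      ((-1) ^ ((c.erase L).filter (fun K => K ⊂ J)).card * Φ ((c.erase L).erase J))) := by
  obtain ⟨h1, h2⟩ := sgn c J L hJ hJL
  rw [h1, h2, erase_right_comm, pow_succ]
  ring

open Classical in
lemma dd_dd {n m : ℕ} (A : Matrix (Fin n) (Fin n) ℤ) (b : Fin n → Fin m → ℚ) (Φ : Cch n m) :
    dd A b (dd A b Φ) = 0 := by
  funext c
  show dd A b (dd A b Φ) c = 0
  by_cases hc : Smp A b c
  swap
  · simp [dd, hc]
  have h1 : ∀ J ∈ c, dd A b Φ (c.erase J) =
      ∑ L ∈ c.erase J, (-1) ^ ((c.erase J).filter (fun K => K ⊂ L)).card *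
        Φ ((c.erase J).erase L) := by
    intro J hJ
    by_cases h2 : Smp A b (c.erase J)
    · simp only [dd, h2, if_true]
    · have h3 : c.erase J = ∅ := by
        by_contra h4
        apply h2
        exact ⟨nonempty_iff_ne_empty.2 h4, fun K hK => hc.2.1 K (mem_of_mem_erase hK),
          fun K hK L hL => hc.2.2 K (mem_of_mem_erase hK) L (mem_of_mem_erase hL)⟩
      rw [h3] at h2 ⊢
      simp [dd, h2]
  have h2 : dd A b (dd A b Φ) c = ∑ J ∈ c, (-1) ^ (c.filter (fun K => K ⊂ J)).card *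
      dd A b Φ (c.erase J) := by
    conv_lhs => rw [dd]
    rw [if_pos hc]
  rw [h2]
  set G : Finset (Fin n) → Finset (Fin n) → Pl n m := fun J L =>
    if L = J then 0 else (-1) ^ (c.filter (fun K => K ⊂ J)).card *
      ((-1) ^ ((c.erase J).filter (fun K => K ⊂ L)).card * Φ ((c.erase J).erase L)) with hG
  have h3 : ∑ J ∈ c, (-1) ^ (c.filter (fun K => K ⊂ J)).card * dd A b Φ (c.erase J) =
      ∑ J ∈ c, ∑ L ∈ c, G J L := by
    refine sum_congr rfl fun J hJ => ?_
    rw [h1 J hJ, mul_sum, ← add_sum_erase c (G J) hJ]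
    have h4 : G J J = 0 := by simp [hG]
    rw [h4, zero_add]
    refine sum_congr rfl fun L hL => ?_
    simp only [hG]
    rw [if_neg (ne_of_mem_erase hL)]
  have h4 : ∀ J ∈ c, ∀ L ∈ c, G J L = - G L J := by
    intro J hJ L hL
    by_cases h5 : L = J
    · subst h5
      simp [hG]
    · simp only [hG, if_neg h5, if_neg (Ne.symm h5)]
      rcases hc.2.2 J hJ L hL with h6 | h6
      · exact anti Φ c J L hJ hL (HasSubset.Subset.ssubset_of_ne h6 (Ne.symm h5))
      · rw [anti Φ c L J hL hJ (HasSubset.Subset.ssubset_of_ne h6 h5), neg_neg]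
  have h5 : ∑ J ∈ c, ∑ L ∈ c, G J L = - ∑ J ∈ c, ∑ L ∈ c, G J L := by
    conv_lhs => rw [sum_comm]
    rw [← sum_neg_distrib]
    refine sum_congr rfl fun J hJ => ?_
    rw [← sum_neg_distrib]
    exact sum_congr rfl fun L hL => h4 L hL J hJ
  rw [h3]
  exact self_eq_neg.1 h5

theorem dsq : S_DSQ := fun _ _ A b Φ h => ⟨co_dd A b Φ h, dd_dd A b Φ⟩

end Pool.Agent.Y845.KM
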