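import Pool.Agent.Y461.KM.Stm

/-!
# Project KM: cocycles and coboundaries are graded modules over the invariants
-/

set_option autoImplicit false
set_option linter.all false

namespace Pool.Agent.Y845.KM.Grd

open Pool.Agent.Y461.KM Finset MvPolynomial

lemma inv_anti {n m : ℕ} (A : Matrix (Fin n) (Fin n) ℤ) (b : Fin n → Fin m → ℚ)
    {J K : Finset (Fin n)} (h : J ⊆ K) : Inv A b K ≤ Inv A b J := fun _ hf j hj => hf j (h hj)

lemma al_hom {n m : ℕ} (A : Matrix (Fin n) (Fin n) ℤ) (b : Fin n → Fin m → ℚ) (i : Fin n) :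
    (al A b i).IsHomogeneous 1 := by
  unfold al
  refine IsHomogeneous.add (IsHomogeneous.sum _ _ _ fun j _ => ?_)
    (IsHomogeneous.sum _ _ _ fun j _ => ?_)
  · simpa using (isHomogeneous_C _ ((A j i : ℤ) : ℚ)).mul (isHomogeneous_X ℚ (Sum.inl j))
  · simpa using (isHomogeneous_C _ (b i j)).mul (isHomogeneous_X ℚ (Sum.inr j))

lemma rf_hom {n m : ℕ} (A : Matrix (Fin n) (Fin n) ℤ) (b : Fin n → Fin m → ℚ) (i : Fin n)
    (k : ℕ) (f : Pl n m) (hf : f.IsHomogeneous k) : (rf A b i f).IsHomogeneous k := by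
  have h := hf.aeval (fun x => X x - if x = Sum.inl i then al A b i else 0) (n := 1)
    (S := ℚ) (fun x => by
      refine (isHomogeneous_X ℚ x).sub ?_
      split_ifs
      · exact al_hom A b i
      · exact isHomogeneous_zero _ _ _)
  rw [one_mul] at h
  exact h

lemma rf_comp {n m : ℕ} (A : Matrix (Fin n) (Fin n) ℤ) (b : Fin n → Fin m → ℚ) (i : Fin n)
    (k : ℕ) (f : Pl n m) :
    rf A b i (homogeneousComponent k f) = homogeneousComponent k (rf A b i f) := by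
  conv_rhs => rw [← sum_homogeneousComponent f]
  rw [map_sum, map_sum]
  have h1 : ∀ j ∈ range (f.totalDegree + 1),
      homogeneousComponent k (rf A b i (homogeneousComponent j f)) =
      if k = j then rf A b i (homogeneousComponent j f) else 0 := fun j _ =>
    homogeneousComponent_of_mem ((mem_homogeneousSubmodule _ _).2
      (rf_hom A b i j _ (homogeneousComponent_isHomogeneous j f)))
  rw [sum_congr rfl h1, sum_ite_eq]
  split_ifs with h2
  · rfl
  · rw [homogeneousComponent_eq_zero k f (by simp only [mem_range, not_lt] at h2; omega), map_zero]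

lemma inv_comp {n m : ℕ} (A : Matrix (Fin n) (Fin n) ℤ) (b : Fin n → Fin m → ℚ)
    (J : Finset (Fin n)) (k : ℕ) (f : Pl n m) (hf : f ∈ Inv A b J) :
    homogeneousComponent k f ∈ Inv A b J := fun j hj => by
  rw [rf_comp, hf j hj]

open Classical in
lemma dd_mem {n m : ℕ} (hD : S_DSQ) (A : Matrix (Fin n) (Fin n) ℤ) (b : Fin n → Fin m → ℚ)
    (p : ℕ) (Φ : Cch n m) (h : Φ ∈ Cp A b p) : dd A b Φ ∈ Cp A b (p + 1) := by
  refine ⟨(hD n m A b Φ h.1).1, fun c hc => ?_⟩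
  unfold dd
  split_ifs with h1
  · refine sum_eq_zero fun J hJ => ?_
    rw [h.2 (c.erase J) ?_, mul_zero]
    rw [card_erase_of_mem hJ]
    have := card_pos.2 ⟨J, hJ⟩
    omega
  · rfl

open Classical in
lemma dd_smul {n m : ℕ} (A : Matrix (Fin n) (Fin n) ℤ) (b : Fin n → Fin m → ℚ)
    (f : Pl n m) (Φ : Cch n m) : dd A b (f • Φ) = f • dd A b Φ := by
  funext c
  by_cases h : Smp A b c
  · simp only [dd, h, if_true, Pi.smul_apply, smul_eq_mul, mul_sum]
    exact sum_congr rfl fun J _ => by ring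
  · simp [dd, h]

open Classical in
lemma dd_hc {n m : ℕ} (A : Matrix (Fin n) (Fin n) ℤ) (b : Fin n → Fin m → ℚ)
    (k : ℕ) (Φ : Cch n m) : dd A b (hc k Φ) = hc k (dd A b Φ) := by
  funext c
  by_cases h : Smp A b c
  · simp only [dd, h, if_true, hc, map_sum]
    refine sum_congr rfl fun J _ => ?_
    rcases neg_one_pow_eq_or (Pl n m) ((c.filter (fun K => K ⊂ J)).card) with h1 | h1
    · rw [h1, one_mul, one_mul]
    · rw [h1, neg_one_mul, neg_one_mul, map_neg]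
  · simp [dd, h, hc]

lemma smul_Cp {n m : ℕ} (A : Matrix (Fin n) (Fin n) ℤ) (b : Fin n → Fin m → ℚ) (p : ℕ)
    (f : Pl n m) (hf : f ∈ Inv A b Finset.univ) (Φ : Cch n m) (h : Φ ∈ Cp A b p) :
    f • Φ ∈ Cp A b p := by
  refine ⟨fun c => ⟨fun h1 => ?_, ?_⟩, fun c h1 => ?_⟩
  · rw [Pi.smul_apply, (h.1 c).1 h1, smul_zero]
  · rw [Pi.smul_apply, smul_eq_mul]
    exact Subalgebra.mul_mem _ (inv_anti A b (subset_univ _) hf) (h.1 c).2
  · rw [Pi.smul_apply, h.2 c h1, smul_zero]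

lemma hc_Cp {n m : ℕ} (A : Matrix (Fin n) (Fin n) ℤ) (b : Fin n → Fin m → ℚ) (p k : ℕ)
    (Φ : Cch n m) (h : Φ ∈ Cp A b p) : hc k Φ ∈ Cp A b p := by
  refine ⟨fun c => ⟨fun h1 => ?_, ?_⟩, fun c h1 => ?_⟩
  · simp only [hc]
    rw [(h.1 c).1 h1, map_zero]
  · exact inv_comp A b _ k _ (h.1 c).2
  · simp only [hc]
    rw [h.2 c h1, map_zero]

lemma mem_Zp {n m : ℕ} (A : Matrix (Fin n) (Fin n) ℤ) (b : Fin n → Fin m → ℚ) (p : ℕ)
    (Φ : Cch n m) : Φ ∈ Zp A b p ↔ Φ ∈ Cp A b p ∧ dd A b Φ = 0 := Iff.rfl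

theorem grd : S_DSQ → S_GRD := by
  intro hD n m A b p
  refine ⟨?_, ?_, ?_, ?_, ?_⟩
  · cases p with
    | zero => exact bot_le
    | succ p =>
      rintro _ ⟨Φ, hΦ, rfl⟩
      exact (mem_Zp A b _ _).2 ⟨dd_mem hD A b p Φ hΦ, (hD n m A b Φ hΦ.1).2⟩
  · intro f hf Φ hΦ
    obtain ⟨h1, h2⟩ := (mem_Zp A b _ _).1 hΦ
    exact (mem_Zp A b _ _).2 ⟨smul_Cp A b p f hf Φ h1, by rw [dd_smul, h2, smul_zero]⟩
  · intro f hf Φ hΦ
    cases p with
    | zero =>
      have h1 : Φ = 0 := hΦ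
      rw [h1, smul_zero]
      exact Submodule.zero_mem _
    | succ p =>
      obtain ⟨Θ, hΘ, rfl⟩ := hΦ
      exact ⟨f • Θ, smul_Cp A b p f hf Θ hΘ, dd_smul A b f Θ⟩
  · intro k Φ hΦ
    obtain ⟨h1, h2⟩ := (mem_Zp A b _ _).1 hΦ
    refine (mem_Zp A b _ _).2 ⟨hc_Cp A b p k Φ h1, ?_⟩
    rw [dd_hc, h2]
    funext c
    simp [hc]
  · intro k Φ hΦ
    cases p with
    | zero =>
      have h1 : Φ = 0 := hΦ
      have h2 : hc k (0 : Cch n m) = 0 := by
        funext c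
        simp [hc]
      rw [h1, h2]
      exact Submodule.zero_mem _
    | succ p =>
      obtain ⟨Θ, hΘ, rfl⟩ := hΦ
      exact ⟨hc k Θ, hc_Cp A b p k Θ hΘ, dd_hc A b k Θ⟩

end Pool.Agent.Y845.KM.Grd
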