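import Pool.Agent.Y461.KM.Stm

/-!
# Project KM: the Euler characteristic in degree 0
-/

set_option autoImplicit false
set_option linter.all false

namespace Pool.Agent.Y845.KM.Pt

open Pool.Agent.Y461.KM Finset MvPolynomial

lemma invk_zero {n m : ℕ} (A : Matrix (Fin n) (Fin n) ℤ) (b : Fin n → Fin m → ℚ)
    (J : Finset (Fin n)) : invk A b J 0 = Submodule.span ℚ {(1 : Pl n m)} := by
  ext f
  rw [Submodule.mem_span_singleton]
  constructor
  · rintro ⟨_, h2⟩
    have h3 : f.IsHomogeneous 0 := (mem_homogeneousSubmodule _ _).1 h2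
    rw [← totalDegree_zero_iff_isHomogeneous, totalDegree_eq_zero_iff_eq_C] at h3
    exact ⟨coeff 0 f, by rw [h3]; simp [MvPolynomial.smul_eq_C_mul]⟩
  · rintro ⟨a, rfl⟩
    refine ⟨?_, ?_⟩
    · exact Subalgebra.smul_mem _ (Subalgebra.one_mem _) a
    · refine Submodule.smul_mem _ a ?_
      exact (mem_homogeneousSubmodule _ _).2 (isHomogeneous_one _ _)

lemma finrank_invk {n m : ℕ} (A : Matrix (Fin n) (Fin n) ℤ) (b : Fin n → Fin m → ℚ)
    (J : Finset (Fin n)) : Module.finrank ℚ ↥(invk A b J 0) = 1 := by
  rw [invk_zero]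
  exact finrank_span_singleton one_ne_zero

lemma sph_empty {n m : ℕ} (A : Matrix (Fin n) (Fin n) ℤ) (b : Fin n → Fin m → ℚ) :
    Sph A b ∅ := by
  unfold Sph
  simp

lemma smp_erase {n m : ℕ} (A : Matrix (Fin n) (Fin n) ℤ) (b : Fin n → Fin m → ℚ)
    (c d : Finset (Finset (Fin n))) (h : Smp A b c) (hd : d ⊆ c) (hd0 : d.Nonempty) :
    Smp A b d :=
  ⟨hd0, fun J hJ => h.2.1 J (hd hJ), fun J hJ K hK => h.2.2 J (hd hJ) K (hd hK)⟩

lemma smp_insert {n m : ℕ} (A : Matrix (Fin n) (Fin n) ℤ) (b : Fin n → Fin m → ℚ)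
    (c : Finset (Finset (Fin n))) (h : Smp A b c) : Smp A b (insert ∅ c) := by
  refine ⟨insert_nonempty _ _, fun J hJ => ?_, fun J hJ K hK => ?_⟩
  · rcases mem_insert.1 hJ with h1 | h1
    · rw [h1]
      exact sph_empty A b
    · exact h.2.1 J h1
  · rcases mem_insert.1 hJ with h1 | h1
    · left
      rw [h1]
      exact empty_subset _
    · rcases mem_insert.1 hK with h2 | h2
      · right
        rw [h2]
        exact empty_subset _
      · exact h.2.2 J h1 K h2

lemma smp_one {n m : ℕ} (A : Matrix (Fin n) (Fin n) ℤ) (b : Fin n → Fin m → ℚ) :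
    Smp A b {∅} := by
  refine ⟨singleton_nonempty _, fun J hJ => ?_, fun J hJ K hK => ?_⟩
  · rw [mem_singleton.1 hJ]
    exact sph_empty A b
  · left
    rw [mem_singleton.1 hJ]
    exact empty_subset _

open Classical in
theorem pt : S_PT := by
  intro n m A b
  simp only [finrank_invk, Nat.cast_one, mul_one]
  have h0 : ({∅} : Finset (Finset (Fin n))) ∈ univ.filter (fun c => Smp A b c) :=
    mem_filter.2 ⟨mem_univ _, smp_one A b⟩
  rw [← add_sum_erase _ _ h0]
  have h1 : ∑ c ∈ (univ.filter (fun c => Smp A b c)).erase {∅}, (-1 : ℚ) ^ (c.card + 1) = 0 := by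
    refine sum_involution (fun c _ => if ∅ ∈ c then c.erase ∅ else insert ∅ c) ?_ ?_ ?_ ?_
    · intro c hc
      split_ifs with h2
      · rw [← card_erase_add_one h2]
        ring
      · rw [card_insert_of_notMem h2]
        ring
    · intro c hc _ h3
      split_ifs at h3 with h2
      · rw [← h3] at h2
        exact notMem_erase _ _ h2
      · apply h2
        rw [← h3]
        exact mem_insert_self _ _
    · intro c hc
      obtain ⟨hc1, hc2⟩ := mem_erase.1 hc
      have hc3 := (mem_filter.1 hc2).2
      refine mem_erase.2 ⟨?_, mem_filter.2 ⟨mem_univ _, ?_⟩⟩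
      · split_ifs with h2
        · intro h3
          have : ∅ ∈ c.erase ∅ := by
            rw [h3]
            exact mem_singleton_self _
          exact notMem_erase _ _ this
        · intro h3
          obtain ⟨J, hJ⟩ := hc3.1
          have h4 : J ∈ ({∅} : Finset (Finset (Fin n))) := h3 ▸ mem_insert_of_mem hJ
          rw [mem_singleton.1 h4] at hJ
          exact h2 hJ
      · split_ifs with h2
        · refine smp_erase A b c _ hc3 (erase_subset _ _) ?_
          by_contra h3
          rw [not_nonempty_iff_eq_empty] at h3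
          apply hc1
          have := insert_erase h2
          rw [h3] at this
          rw [← this]
          rfl
        · exact smp_insert A b c hc3
    · intro c hc
      by_cases h2 : ∅ ∈ c
      · rw [if_pos h2, if_neg (notMem_erase _ _), insert_erase h2]
      · rw [if_neg h2, if_pos (mem_insert_self _ _), erase_insert h2]
  rw [h1]
  norm_num

end Pool.Agent.Y845.KM.Pt
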